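import Pool.Agent.helper78.HFN.Spec

/-!
# Project HFN, row INT: interpolation
-/

set_option autoImplicit false

open Polynomial Module

namespace Pool.Agent.HFN

noncomputable section

theorem INT_sq (z : ℂ × ℂ) (a R : AA) (ha : ev z a = 0) :
    ev z (a ^ 2 * R) = 0 ∧ ev z (Dx (a ^ 2 * R)) = 0 ∧ ev z (Dy (a ^ 2 * R)) = 0 := by
  refine ⟨?_, ?_, ?_⟩
  · rw [ev_mul, ev_pow, ha]
    ring
  · rw [sq, Dx_mul, Dx_mul, ev_add, ev_mul, ev_mul, ev_add, ev_mul, ev_mul, ev_mul, ha]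
    ring
  · rw [sq, Dy_mul, Dy_mul, ev_add, ev_mul, ev_mul, ev_add, ev_mul, ev_mul, ev_mul, ha]
    ring

/-- a linear form which vanishes at `z` and not at `z₀` -/
theorem INT_lin (z z₀ : ℂ × ℂ) (h : z ≠ z₀) : ∃ l : AA, l ∈ V 1 1 ∧ ev z l = 0 ∧ ev z₀ l ≠ 0 := by
  by_cases h1 : z.1 = z₀.1
  · have h2 : z.2 ≠ z₀.2 := fun h3 => h (Prod.ext h1 h3)
    refine ⟨X - C (C z.2), ?_, ?_, ?_⟩
    · refine Submodule.sub_mem _ ?_ ?_
      · rw [mem_V, dX_X, dY_X]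
        exact ⟨Nat.zero_le _, le_refl _⟩
      · rw [mem_V, dX_C, dY_C, natDegree_C]
        exact ⟨Nat.zero_le _, Nat.zero_le _⟩
    · rw [ev_sub, ev_X, ev_C, eval_C, sub_self]
    · rw [ev_sub, ev_X, ev_C, eval_C]
      exact sub_ne_zero.mpr (Ne.symm h2)
  · refine ⟨C (X - C z.1), ?_, ?_, ?_⟩
    · rw [mem_V, dX_C, dY_C, natDegree_X_sub_C]
      exact ⟨le_refl _, Nat.zero_le _⟩
    · rw [ev_C, eval_sub, eval_X, eval_C, sub_self]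
    · rw [ev_C, eval_sub, eval_X, eval_C]
      exact sub_ne_zero.mpr (Ne.symm h1)

theorem INT_prod (Z : Finset (ℂ × ℂ)) (z₀ : ℂ × ℂ) (h0 : z₀ ∉ Z) : ∃ Q : AA, Q ∈ V (2 * Z.card) (2 * Z.card) ∧
    ev z₀ Q ≠ 0 ∧ ∀ z ∈ Z, ev z Q = 0 ∧ ev z (Dx Q) = 0 ∧ ev z (Dy Q) = 0 := by
  classical
  induction Z using Finset.induction_on with
  | empty =>
    refine ⟨1, ?_, ?_, ?_⟩
    · rw [mem_V, dX_one, dY_one]
      exact ⟨Nat.zero_le _, Nat.zero_le _⟩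
    · rw [ev_one]
      exact one_ne_zero
    · intro z hz
      exact absurd hz (Finset.notMem_empty z)
  | insert a Z ha ih =>
    rw [Finset.mem_insert, not_or] at h0
    obtain ⟨Q, hQ1, hQ2, hQ3⟩ := ih h0.2
    obtain ⟨l, hl1, hl2, hl3⟩ := INT_lin a z₀ (Ne.symm h0.1)
    refine ⟨l ^ 2 * Q, ?_, ?_, ?_⟩
    · rw [Finset.card_insert_of_notMem ha]
      have h1 : l ^ 2 ∈ V (1 + 1) (1 + 1) := by
        rw [sq]
        exact mul_mem_V hl1 hl1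
      have h2 := mul_mem_V h1 hQ1
      exact V_mono (by omega) (by omega) h2
    · rw [ev_mul, ev_pow]
      exact mul_ne_zero (pow_ne_zero _ hl3) hQ2
    · intro z hz
      rcases Finset.mem_insert.mp hz with hz | hz
      · rw [hz]
        exact INT_sq a l Q hl2
      · obtain ⟨h1, h2, h3⟩ := hQ3 z hz
        refine ⟨?_, ?_, ?_⟩
        · rw [ev_mul, h1, mul_zero]
        · rw [Dx_mul, ev_add, ev_mul, ev_mul, h1, h2, mul_zero, mul_zero, add_zero]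
        · rw [Dy_mul, ev_add, ev_mul, ev_mul, h1, h3, mul_zero, mul_zero, add_zero]

theorem INT_one (Z : Finset (ℂ × ℂ)) (z₀ : ℂ × ℂ) (hz₀ : z₀ ∈ Z) (a b c : ℂ) : ∃ f : AA, f ∈ V (2 * Z.card) (2 * Z.card) ∧
    (ev z₀ f = a ∧ ev z₀ (Dx f) = b ∧ ev z₀ (Dy f) = c) ∧
    ∀ z ∈ Z, z ≠ z₀ → ev z f = 0 ∧ ev z (Dx f) = 0 ∧ ev z (Dy f) = 0 := by
  classical
  obtain ⟨Q, hQ1, hQ2, hQ3⟩ := INT_prod (Z.erase z₀) z₀ (Finset.notMem_erase z₀ Z)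
  obtain ⟨u, hu⟩ : ∃ u : ℂ, u * ev z₀ Q = a := ⟨a / ev z₀ Q, div_mul_cancel₀ a hQ2⟩
  obtain ⟨v, hv⟩ : ∃ v : ℂ, v * ev z₀ Q = b - u * ev z₀ (Dx Q) :=
    ⟨(b - u * ev z₀ (Dx Q)) / ev z₀ Q, div_mul_cancel₀ _ hQ2⟩
  obtain ⟨w, hw⟩ : ∃ w : ℂ, w * ev z₀ Q = c - u * ev z₀ (Dy Q) :=
    ⟨(c - u * ev z₀ (Dy Q)) / ev z₀ Q, div_mul_cancel₀ _ hQ2⟩
  have hL : ∃ L : AA, L ∈ V 1 1 ∧ ev z₀ L = u ∧ ev z₀ (Dx L) = v ∧ ev z₀ (Dy L) = w := by
    refine ⟨u • 1 + v • C (X - C z₀.1) + w • (X - C (C z₀.2)), ?_, ?_, ?_, ?_⟩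
    · refine Submodule.add_mem _ (Submodule.add_mem _ (Submodule.smul_mem _ _ ?_) (Submodule.smul_mem _ _ ?_))
        (Submodule.smul_mem _ _ (Submodule.sub_mem _ ?_ ?_))
      · rw [mem_V, dX_one, dY_one]
        exact ⟨Nat.zero_le _, Nat.zero_le _⟩
      · rw [mem_V, dX_C, dY_C, natDegree_X_sub_C]
        exact ⟨le_refl _, Nat.zero_le _⟩
      · rw [mem_V, dX_X, dY_X]
        exact ⟨Nat.zero_le _, le_refl _⟩
      · rw [mem_V, dX_C, dY_C, natDegree_C]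
        exact ⟨Nat.zero_le _, Nat.zero_le _⟩
    · rw [ev_add, ev_add, ev_smul, ev_smul, ev_smul, ev_one, ev_C, eval_sub, eval_X, eval_C, ev_sub, ev_X, ev_C, eval_C]
      ring
    · have h1 : Dx (1 : AA) = 0 := by
        have h2 := Dx_C 1
        rw [derivative_one, map_zero, map_one] at h2
        exact h2
      rw [Dx_add, Dx_add, Dx_smul, Dx_smul, Dx_smul, Dx_sub, Dx_C, Dx_C, Dx_X, h1, derivative_sub, derivative_X, derivative_C,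
        derivative_C, ev_add, ev_add, ev_smul, ev_smul, ev_smul, ev_zero, ev_C, ev_sub, ev_zero, ev_C, sub_zero, eval_one,
        eval_zero]
      ring
    · have h1 : Dy (1 : AA) = 0 := derivative_one
      rw [Dy_add, Dy_add, Dy_smul, Dy_smul, Dy_smul, Dy_sub, Dy_C, Dy_C, Dy_X, h1, ev_add, ev_add, ev_smul, ev_smul, ev_smul,
        ev_zero, ev_sub, ev_one, ev_zero]
      ring
  obtain ⟨L, hL1, hL2, hL3, hL4⟩ := hL
  refine ⟨L * Q, ?_, ⟨?_, ?_, ?_⟩, ?_⟩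
  · have h1 := mul_mem_V hL1 hQ1
    have h2 : (Z.erase z₀).card + 1 = Z.card := Finset.card_erase_add_one hz₀
    exact V_mono (by omega) (by omega) h1
  · rw [ev_mul, hL2, hu]
  · rw [Dx_mul, ev_add, ev_mul, ev_mul, hL2, hL3, hv]
    ring
  · rw [Dy_mul, ev_add, ev_mul, ev_mul, hL2, hL4, hw]
    ring
  · intro z hz hne
    obtain ⟨h1, h2, h3⟩ := hQ3 z (Finset.mem_erase.mpr ⟨hne, hz⟩)
    refine ⟨?_, ?_, ?_⟩
    · rw [ev_mul, h1, mul_zero]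
    · rw [Dx_mul, ev_add, ev_mul, ev_mul, h1, h2, mul_zero, mul_zero, add_zero]
    · rw [Dy_mul, ev_add, ev_mul, ev_mul, h1, h3, mul_zero, mul_zero, add_zero]

theorem INT : INT_stmt := by
  intro Z α β γ M N hM hN
  classical
  have h : ∀ z₀ : ℂ × ℂ, ∃ f : AA, z₀ ∈ Z → f ∈ V (2 * Z.card) (2 * Z.card) ∧
      (ev z₀ f = α z₀ ∧ ev z₀ (Dx f) = β z₀ ∧ ev z₀ (Dy f) = γ z₀) ∧
      ∀ z ∈ Z, z ≠ z₀ → ev z f = 0 ∧ ev z (Dx f) = 0 ∧ ev z (Dy f) = 0 := by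
    intro z₀
    by_cases hz : z₀ ∈ Z
    · obtain ⟨f, hf⟩ := INT_one Z z₀ hz (α z₀) (β z₀) (γ z₀)
      exact ⟨f, fun _ => hf⟩
    · exact ⟨0, fun h => absurd h hz⟩
  choose F hF using h
  have hDx : Dx (∑ z₀ ∈ Z, F z₀) = ∑ z₀ ∈ Z, Dx (F z₀) := by
    unfold Dx
    rw [map_sum, derivative_sum, map_sum]
  have hDy : Dy (∑ z₀ ∈ Z, F z₀) = ∑ z₀ ∈ Z, Dy (F z₀) := by
    unfold Dy
    rw [derivative_sum]
  refine ⟨∑ z₀ ∈ Z, F z₀, ?_, ?_⟩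
  · refine Submodule.sum_mem _ fun z₀ hz₀ => ?_
    exact V_mono hM hN (hF z₀ hz₀).1
  · intro z hz
    refine ⟨?_, ?_, ?_⟩
    · rw [ev_sum, Finset.sum_eq_single z]
      · exact (hF z hz).2.1.1
      · intro z₀ hz₀ hne
        exact ((hF z₀ hz₀).2.2 z hz (Ne.symm hne)).1
      · intro h
        exact absurd hz h
    · rw [hDx, ev_sum, Finset.sum_eq_single z]
      · exact (hF z hz).2.1.2.1
      · intro z₀ hz₀ hne
        exact ((hF z₀ hz₀).2.2 z hz (Ne.symm hne)).2.1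
      · intro h
        exact absurd hz h
    · rw [hDy, ev_sum, Finset.sum_eq_single z]
      · exact (hF z hz).2.1.2.2
      · intro z₀ hz₀ hne
        exact ((hF z₀ hz₀).2.2 z hz (Ne.symm hne)).2.2
      · intro h
        exact absurd hz h

end

end Pool.Agent.HFN
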